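import Pool.Agent.H33.HH.TD
import Pool.Agent.H56.CF.All

/-!
# Row IDB: the number of the ideals, uniformly in the field
-/

set_option autoImplicit false

open NumberField Finset

namespace Pool.Agent.H21.HH

open Pool.Agent.H28.RC Pool.Agent.H37.CV Pool.Agent.H33.HH Pool.Agent.H56.CF

theorem sum_sq_le (N : ℕ) : ∑ e ∈ Icc 1 N, 1 / ((e : ℝ) ^ 2) ≤ 2 := by
  have h : ∀ N : ℕ, 1 ≤ N → ∑ e ∈ Icc 1 N, 1 / ((e : ℝ) ^ 2) ≤ 2 - 1 / (N : ℝ) := by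
    intro N hN
    induction N, hN using Nat.le_induction with
    | base => norm_num
    | succ n hn ih =>
      rw [sum_Icc_succ_top (by omega)]
      have hn' : (0 : ℝ) < n := by exact_mod_cast hn
      have h1 : 1 / (((n + 1 : ℕ) : ℝ) ^ 2) ≤ 1 / (n : ℝ) - 1 / ((n + 1 : ℕ) : ℝ) := by
        push_cast
        rw [div_sub_div _ _ hn'.ne' (by positivity), div_le_div_iff₀ (by positivity) (by positivity)]
        nlinarith
      linarith
  rcases Nat.eq_zero_or_pos N with h0 | h0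
  · subst h0
    simp
  · refine (h N h0).trans ?_
    have : (0 : ℝ) ≤ 1 / (N : ℝ) := by positivity
    linarith

theorem swap_sum (f : ℕ → ℝ) (hf : ∀ n, 0 ≤ f n) (N : ℕ) :
    ∑ n ∈ Icc 1 N, ∑ e ∈ (Icc 1 n).filter (fun e => e ^ 2 ∣ n), f (n / e ^ 2) ≤
      ∑ e ∈ Icc 1 N, ∑ A ∈ Icc 1 (N / e ^ 2), f A := by
  have h1 : ∑ n ∈ Icc 1 N, ∑ e ∈ (Icc 1 n).filter (fun e => e ^ 2 ∣ n), f (n / e ^ 2) ≤
      ∑ n ∈ Icc 1 N, ∑ e ∈ Icc 1 N, if e ^ 2 ∣ n then f (n / e ^ 2) else 0 := by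
    refine sum_le_sum fun n hn => ?_
    rw [← sum_filter]
    refine sum_le_sum_of_subset_of_nonneg ?_ fun _ _ _ => hf _
    intro e he
    rw [mem_filter, mem_Icc] at he ⊢
    rw [mem_Icc] at hn
    exact ⟨⟨he.1.1, he.1.2.trans hn.2⟩, he.2⟩
  refine h1.trans ?_
  rw [sum_comm]
  refine sum_le_sum fun e he => ?_
  rw [mem_Icc] at he
  have he2 : 0 < e ^ 2 := pow_pos (by omega) 2
  rw [← sum_filter]
  refine le_of_eq ?_
  refine sum_bij' (fun n _ => n / e ^ 2) (fun A _ => A * e ^ 2) ?_ ?_ ?_ ?_ ?_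
  · intro n hn
    rw [mem_filter, mem_Icc] at hn
    rw [mem_Icc]
    exact ⟨Nat.div_pos (Nat.le_of_dvd (by omega) hn.2) he2, Nat.div_le_div_right hn.1.2⟩
  · intro A hA
    rw [mem_Icc] at hA
    rw [mem_filter, mem_Icc]
    refine ⟨⟨Nat.mul_pos (by omega) he2, ?_⟩, dvd_mul_left _ _⟩
    exact (Nat.mul_le_mul_right _ hA.2).trans (Nat.div_mul_le_self _ _)
  · intro n hn
    rw [mem_filter] at hn
    exact Nat.div_mul_cancel hn.2
  · intro A _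
    exact Nat.mul_div_cancel _ he2
  · intro n _
    rfl

theorem ideals_le (K : Type) [Field K] [NumberField K] (x : ℝ) :
    ({I : Ideal (𝓞 K) | I ≠ ⊥ ∧ nm I ≤ x}.ncard : ℝ) ≤ ∑ n ∈ Icc 1 ⌊x⌋₊, (aK K n : ℝ) := by
  have hfin : ∀ n ∈ Icc 1 ⌊x⌋₊, {I : Ideal (𝓞 K) | Ideal.absNorm I = n}.Finite := by
    intro n hn
    exact Ideal.finite_setOf_absNorm_eq n
  have hsub : {I : Ideal (𝓞 K) | I ≠ ⊥ ∧ nm I ≤ x} ⊆
      ⋃ n ∈ Icc 1 ⌊x⌋₊, {I : Ideal (𝓞 K) | Ideal.absNorm I = n} := by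
    rintro I ⟨h1, h2⟩
    simp only [Set.mem_iUnion, Set.mem_setOf_eq, exists_prop]
    refine ⟨Ideal.absNorm I, ?_, rfl⟩
    rw [mem_Icc]
    refine ⟨Nat.one_le_iff_ne_zero.2 fun h => h1 (Ideal.absNorm_eq_zero_iff.1 h), ?_⟩
    exact Nat.le_floor h2
  have h1 := Set.ncard_le_ncard hsub (Set.Finite.biUnion (Icc 1 ⌊x⌋₊).finite_toSet hfin)
  have h2 : (⋃ n ∈ Icc 1 ⌊x⌋₊, {I : Ideal (𝓞 K) | Ideal.absNorm I = n}).ncard ≤
      ∑ n ∈ Icc 1 ⌊x⌋₊, aK K n := by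
    generalize Icc 1 ⌊x⌋₊ = s at hfin
    clear hsub h1
    induction s using Finset.induction_on with
    | empty => simp
    | insert a s ha ih =>
      rw [Finset.set_biUnion_insert, sum_insert ha]
      refine (Set.ncard_union_le _ _).trans ?_
      exact Nat.add_le_add le_rfl (ih fun n hn => hfin n (mem_insert_of_mem hn))
  exact_mod_cast h1.trans h2

theorem pf_IDB (h1 : T_RCD) (h2 : T_RTB) : T_IDB := by
  refine ⟨8 * (2 + Real.log 4), ?_, ?_⟩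
  · have : 0 ≤ Real.log 4 := Real.log_nonneg (by norm_num)
    linarith
  intro K _ _ x hK hd hx
  obtain ⟨hF, hS⟩ := h1 (discr K) hd
  have hd1 : (1 : ℝ) ≤ |(discr K : ℝ)| := by
    have h : (1 : ℤ) ≤ |discr K| := Int.one_le_abs (discr_ne_zero K)
    exact_mod_cast h
  have hlog : 0 ≤ Real.log |(discr K : ℝ)| := Real.log_nonneg hd1
  have hlog4 : 0 ≤ Real.log 4 := Real.log_nonneg (by norm_num)
  have hL : Real.log (4 * |(discr K : ℝ)|) = Real.log 4 + Real.log |(discr K : ℝ)| :=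
    Real.log_mul (by norm_num) (by linarith)
  have hrts : ∀ y : ℕ, ∑ A ∈ Icc 1 y, (rts A (discr K) : ℝ) ≤
      4 * (y : ℝ) * (2 + Real.log (4 * |(discr K : ℝ)|)) := by
    intro y
    calc ∑ A ∈ Icc 1 y, (rts A (discr K) : ℝ) ≤ ∑ A ∈ Icc 1 y,
        2 * ∑ t ∈ (Pool.Agent.H34.PS.op A).divisors, Pool.Agent.H34.PS.chi (ker (discr K)) t :=
          sum_le_sum fun A hA => h2 (discr K) hd A (mem_Icc.1 hA).1
      _ = 2 * ∑ A ∈ Icc 1 y, ∑ t ∈ (Pool.Agent.H34.PS.op A).divisors,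
          Pool.Agent.H34.PS.chi (ker (discr K)) t := by rw [mul_sum]
      _ ≤ 2 * (2 * (y : ℝ) * (2 + Real.log (4 * |(discr K : ℝ)|))) :=
          mul_le_mul_of_nonneg_left (hS y) (by norm_num)
      _ = _ := by ring
  have hLn : 0 ≤ 2 + Real.log (4 * |(discr K : ℝ)|) := by
    rw [hL]
    linarith
  have hxf : ((⌊x⌋₊ : ℕ) : ℝ) ≤ x := Nat.floor_le (by linarith)
  calc ({I : Ideal (𝓞 K) | I ≠ ⊥ ∧ nm I ≤ x}.ncard : ℝ)
      ≤ ∑ n ∈ Icc 1 ⌊x⌋₊, (aK K n : ℝ) := ideals_le K x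
    _ ≤ ∑ n ∈ Icc 1 ⌊x⌋₊, ∑ e ∈ (Icc 1 n).filter (fun e => e ^ 2 ∣ n),
        (rts (n / e ^ 2) (discr K) : ℝ) := by
        refine sum_le_sum fun n hn => ?_
        exact_mod_cast Pool.Agent.H56.CF.All.akn K hK n (mem_Icc.1 hn).1
    _ ≤ ∑ e ∈ Icc 1 ⌊x⌋₊, ∑ A ∈ Icc 1 (⌊x⌋₊ / e ^ 2), (rts A (discr K) : ℝ) :=
        swap_sum (fun A => (rts A (discr K) : ℝ)) (fun _ => Nat.cast_nonneg _) ⌊x⌋₊
    _ ≤ ∑ e ∈ Icc 1 ⌊x⌋₊, 4 * (2 + Real.log (4 * |(discr K : ℝ)|)) * x * (1 / (e : ℝ) ^ 2) := by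
        refine sum_le_sum fun e he => (hrts _).trans ?_
        rw [mem_Icc] at he
        have he' : (0 : ℝ) < (e : ℝ) ^ 2 := by
          have : (0 : ℝ) < e := by exact_mod_cast he.1
          positivity
        have h5 : ((⌊x⌋₊ / e ^ 2 : ℕ) : ℝ) ≤ x * (1 / (e : ℝ) ^ 2) := by
          have h6 : ((⌊x⌋₊ / e ^ 2 : ℕ) : ℝ) ≤ ((⌊x⌋₊ : ℕ) : ℝ) / ((e ^ 2 : ℕ) : ℝ) :=
            Nat.cast_div_le
          refine h6.trans ?_
          push_cast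
          rw [mul_one_div]
          exact div_le_div_of_nonneg_right hxf he'.le
        calc 4 * ((⌊x⌋₊ / e ^ 2 : ℕ) : ℝ) * (2 + Real.log (4 * |(discr K : ℝ)|))
            = 4 * (2 + Real.log (4 * |(discr K : ℝ)|)) * ((⌊x⌋₊ / e ^ 2 : ℕ) : ℝ) := by ring
          _ ≤ 4 * (2 + Real.log (4 * |(discr K : ℝ)|)) * (x * (1 / (e : ℝ) ^ 2)) :=
              mul_le_mul_of_nonneg_left h5 (by linarith)
          _ = _ := by ring
    _ = 4 * (2 + Real.log (4 * |(discr K : ℝ)|)) * x * ∑ e ∈ Icc 1 ⌊x⌋₊, 1 / (e : ℝ) ^ 2 := by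
        rw [mul_sum]
    _ ≤ 4 * (2 + Real.log (4 * |(discr K : ℝ)|)) * x * 2 := by
        refine mul_le_mul_of_nonneg_left (sum_sq_le _) ?_
        exact mul_nonneg (by linarith) (by linarith)
    _ = 8 * x * (2 + Real.log 4 + Real.log |(discr K : ℝ)|) := by rw [hL]; ring
    _ ≤ 8 * (2 + Real.log 4) * x * (1 + Real.log |(discr K : ℝ)|) := by
        have h7 : 2 + Real.log 4 + Real.log |(discr K : ℝ)| ≤
            (2 + Real.log 4) * (1 + Real.log |(discr K : ℝ)|) := by nlinarith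
        calc 8 * x * (2 + Real.log 4 + Real.log |(discr K : ℝ)|)
            ≤ 8 * x * ((2 + Real.log 4) * (1 + Real.log |(discr K : ℝ)|)) :=
              mul_le_mul_of_nonneg_left h7 (by linarith)
          _ = _ := by ring

end Pool.Agent.H21.HH
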