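import Pool.Agent.H33.HH.TD

/-!
# Row PR2: the characters with the same values at the principal ideals
-/

set_option autoImplicit false

open NumberField Module
open scoped nonZeroDivisors

namespace Pool.Agent.H21.HH

open Pool.Agent.H28.RC Pool.Agent.H33.HH

/-- every class of ideals contains an ideal which is prime to `f` -/
theorem cop (K : Type) [Field K] [NumberField K] (F : Ideal (𝓞 K)) (hF : F ≠ ⊥)
    (c : ClassGroup (𝓞 K)) :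
    ∃ I : (Ideal (𝓞 K))⁰, ClassGroup.mk0 I = c ∧ (I : Ideal (𝓞 K)) ⊔ F = ⊤ := by
  obtain ⟨J, hJ⟩ := ClassGroup.mk0_surjective c⁻¹
  have hJ0 : (J : Ideal (𝓞 K)) ≠ ⊥ := mem_nonZeroDivisors_iff_ne_zero.1 J.2
  have hle : (J : Ideal (𝓞 K)) * F ≤ J := Ideal.mul_le_left
  have hne : (J : Ideal (𝓞 K)) * F ≠ 0 := mul_ne_zero hJ0 hF
  obtain ⟨a, ha⟩ := IsDedekindDomain.exists_sup_span_eq hle hne
  obtain ⟨I₀, hI₀⟩ := ClassGroup.mk0_surjective c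
  by_cases ha0 : a = 0
  · rw [ha0, Ideal.span_singleton_eq_bot.2 rfl, sup_bot_eq] at ha
    have h1 : F = ⊤ := by
      have h2 : (J : Ideal (𝓞 K)) * F = J * ⊤ := by rw [ha, Ideal.mul_top]
      exact mul_left_cancel₀ hJ0 h2
    exact ⟨I₀, hI₀, by rw [h1, sup_top_eq]⟩
  · have h1 : Ideal.span {a} ≤ (J : Ideal (𝓞 K)) := by
      rw [← ha]
      exact le_sup_right
    obtain ⟨I, hI⟩ := Ideal.dvd_iff_le.2 h1
    have hI0 : I ≠ ⊥ := by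
      intro h
      rw [h, Ideal.mul_bot] at hI
      exact ha0 (Ideal.span_singleton_eq_bot.1 hI)
    refine ⟨⟨I, mem_nonZeroDivisors_iff_ne_zero.2 hI0⟩, ?_, ?_⟩
    · have h2 : ClassGroup.mk0 J * ClassGroup.mk0 ⟨I, mem_nonZeroDivisors_iff_ne_zero.2 hI0⟩ = 1 := by
        rw [← map_mul, ClassGroup.mk0_eq_one_iff]
        have h3 : ((J * ⟨I, mem_nonZeroDivisors_iff_ne_zero.2 hI0⟩ : (Ideal (𝓞 K))⁰) :
            Ideal (𝓞 K)) = Ideal.span {a} := by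
          rw [hI]
          rfl
        rw [h3]
        exact ⟨⟨a, rfl⟩⟩
      rw [hJ] at h2
      exact (inv_mul_eq_one.1 h2).symm
    · have h2 : (J : Ideal (𝓞 K)) * (F ⊔ I) = J * ⊤ := by
        rw [Ideal.mul_sup, ← hI, ha, Ideal.mul_top]
      have h3 := mul_left_cancel₀ hJ0 h2
      change I ⊔ F = ⊤
      rw [sup_comm]
      exact h3

section
variable {K : Type} [Field K] [NumberField K]

theorem sup_mul {F I J : Ideal (𝓞 K)} (hI : I ⊔ F = ⊤) (hJ : J ⊔ F = ⊤) : I * J ⊔ F = ⊤ := by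
  rw [← Ideal.isCoprime_iff_sup_eq] at hI hJ ⊢
  exact hI.mul_left hJ

/-- the values at the principal ideals -/
def Vl (F : Ideal (𝓞 K)) (S : Finset (RP K)) (l : (𝓞 K ⧸ F)ˣ →* ℂˣ) (χ : RCC K) : Prop :=
  ∀ (a : 𝓞 K) (u : (𝓞 K ⧸ F)ˣ), a ≠ 0 → (u : 𝓞 K ⧸ F) = Ideal.Quotient.mk F a →
    χ.ψ (Ideal.span {a}) = sg K S a * ((l u : ℂˣ) : ℂ)

/-- the same values at the principal ideals -/
theorem val_eq {F : Ideal (𝓞 K)} {S : Finset (RP K)} {l : (𝓞 K ⧸ F)ˣ →* ℂˣ} {χ χ' : RCC K}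
    (h : Vl F S l χ) (h' : Vl F S l χ') {a : 𝓞 K} (ha : a ≠ 0)
    (hc : Ideal.span {a} ⊔ F = ⊤) :
    χ'.ψ (Ideal.span {a}) = χ.ψ (Ideal.span {a}) := by
  have hu : IsUnit (Ideal.Quotient.mk F a) := by
    have h1 : (1 : 𝓞 K) ∈ Ideal.span {a} ⊔ F := by rw [hc]; exact Submodule.mem_top
    obtain ⟨x, hx, y, hy, hxy⟩ := Submodule.mem_sup.1 h1
    obtain ⟨z, rfl⟩ := Ideal.mem_span_singleton'.1 hx
    refine IsUnit.of_mul_eq_one (Ideal.Quotient.mk F z) ?_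
    rw [← map_mul, ← map_one (Ideal.Quotient.mk F), Ideal.Quotient.eq, ← hxy]
    have e : a * z - (z * a + y) = -y := by ring
    rw [e]
    exact F.neg_mem hy
  obtain ⟨u, hu⟩ := hu
  rw [h a u ha hu, h' a u ha hu]

theorem rat {F : Ideal (𝓞 K)} (hF : F ≠ ⊥) {S : Finset (RP K)} {l : (𝓞 K ⧸ F)ˣ →* ℂˣ}
    {χ χ' : RCC K} (hfχ : χ.f = F) (hfχ' : χ'.f = F) (hTh : Vl F S l χ) (hTh' : Vl F S l χ') :
    ∃ φ : ClassGroup (𝓞 K) →* ℂˣ, ∀ I : (Ideal (𝓞 K))⁰,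
      χ'.ψ I = χ.ψ I * ((φ (ClassGroup.mk0 I) : ℂˣ) : ℂ) := by
  classical
  have hne : ∀ I : (Ideal (𝓞 K))⁰, (I : Ideal (𝓞 K)) ⊔ F = ⊤ → χ.ψ I ≠ 0 ∧ χ'.ψ I ≠ 0 := by
    intro I hI
    have hI0 : (I : Ideal (𝓞 K)) ≠ ⊥ := nonZeroDivisors.coe_ne_zero I
    constructor
    · intro h0
      have := χ.norm_one I hI0 (by rw [hfχ]; exact hI)
      rw [h0, norm_zero] at this
      exact zero_ne_one this
    · intro h0
      have := χ'.norm_one I hI0 (by rw [hfχ']; exact hI)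
      rw [h0, norm_zero] at this
      exact zero_ne_one this
  -- the values at the ideals in inverse classes
  have key : ∀ I J : (Ideal (𝓞 K))⁰, (I : Ideal (𝓞 K)) ⊔ F = ⊤ → (J : Ideal (𝓞 K)) ⊔ F = ⊤ →
      ClassGroup.mk0 I * ClassGroup.mk0 J = 1 → χ'.ψ I * χ'.ψ J = χ.ψ I * χ.ψ J := by
    intro I J hI hJ h1
    rw [← map_mul] at h1
    have hIJ0 : ((I * J : (Ideal (𝓞 K))⁰) : Ideal (𝓞 K)) ≠ ⊥ := nonZeroDivisors.coe_ne_zero _
    have h2 := (ClassGroup.mk0_eq_one_iff (I * J).2).1 h1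
    obtain ⟨a, ha⟩ := h2.principal
    have ha' : (I : Ideal (𝓞 K)) * J = Ideal.span {a} := ha
    have ha0 : a ≠ 0 := by
      rintro rfl
      apply hIJ0
      change (I : Ideal (𝓞 K)) * J = ⊥
      rw [ha', Ideal.span_singleton_eq_bot]
    rw [← χ.map_mul, ← χ'.map_mul, ha']
    refine val_eq hTh hTh' ha0 ?_
    rw [← ha']
    exact sup_mul hI hJ
  have same : ∀ I I' : (Ideal (𝓞 K))⁰, (I : Ideal (𝓞 K)) ⊔ F = ⊤ →
      (I' : Ideal (𝓞 K)) ⊔ F = ⊤ → ClassGroup.mk0 I = ClassGroup.mk0 I' →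
      χ'.ψ I / χ.ψ I = χ'.ψ I' / χ.ψ I' := by
    intro I I' hI hI' h1
    obtain ⟨J, hJ1, hJ2⟩ := cop K F hF (ClassGroup.mk0 I)⁻¹
    have h2 := key I J hI hJ2 (by rw [hJ1, mul_inv_cancel])
    have h3 := key I' J hI' hJ2 (by rw [hJ1, ← h1, mul_inv_cancel])
    obtain ⟨a1, a2⟩ := hne I hI
    obtain ⟨b1, b2⟩ := hne I' hI'
    obtain ⟨c1, c2⟩ := hne J hJ2
    rw [div_eq_div_iff a1 b1]
    have h4 : χ'.ψ I * χ.ψ I' * (χ.ψ J * χ'.ψ J) = χ'.ψ I' * χ.ψ I * (χ.ψ J * χ'.ψ J) := by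
      calc χ'.ψ I * χ.ψ I' * (χ.ψ J * χ'.ψ J) = (χ'.ψ I * χ'.ψ J) * (χ.ψ I' * χ.ψ J) := by ring
        _ = (χ.ψ I * χ.ψ J) * (χ'.ψ I' * χ'.ψ J) := by rw [h2, h3]
        _ = χ'.ψ I' * χ.ψ I * (χ.ψ J * χ'.ψ J) := by ring
    exact mul_right_cancel₀ (mul_ne_zero c1 c2) h4
  choose R hR1 hR2 using cop K F hF
  have hval : ∀ c, χ'.ψ (R c) / χ.ψ (R c) ≠ 0 := fun c =>
    div_ne_zero (hne _ (hR2 c)).2 (hne _ (hR2 c)).1
  have htop : ((1 : (Ideal (𝓞 K))⁰) : Ideal (𝓞 K)) ⊔ F = ⊤ := by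
    rw [OneMemClass.coe_one, Ideal.one_eq_top, top_sup_eq]
  let φ : ClassGroup (𝓞 K) →* ℂˣ :=
    { toFun := fun c => Units.mk0 _ (hval c)
      map_one' := by
        apply Units.ext
        rw [Units.val_mk0, Units.val_one]
        rw [same (R 1) 1 (hR2 1) htop (by rw [hR1, map_one])]
        rw [OneMemClass.coe_one, Ideal.one_eq_top, χ.map_one, χ'.map_one, div_one]
      map_mul' := by
        intro c c'
        apply Units.ext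
        rw [Units.val_mul, Units.val_mk0, Units.val_mk0, Units.val_mk0]
        rw [same (R (c * c')) (R c * R c') (hR2 _)
          (sup_mul (hR2 c) (hR2 c')) (by rw [hR1, map_mul, hR1, hR1])]
        change χ'.ψ ((R c : Ideal (𝓞 K)) * R c') / χ.ψ ((R c : Ideal (𝓞 K)) * R c') = _
        rw [χ.map_mul, χ'.map_mul, mul_div_mul_comm] }
  refine ⟨φ, fun I => ?_⟩
  by_cases hI : (I : Ideal (𝓞 K)) ⊔ F = ⊤
  · have h1 : ((φ (ClassGroup.mk0 I) : ℂˣ) : ℂ) =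
        χ'.ψ (R (ClassGroup.mk0 I)) / χ.ψ (R (ClassGroup.mk0 I)) := rfl
    rw [h1, same (R (ClassGroup.mk0 I)) I (hR2 _) hI (hR1 _)]
    have h2 := (hne I hI).1
    field_simp
  · rw [χ.eq_zero I (by rw [hfχ]; exact hI), χ'.eq_zero I (by rw [hfχ']; exact hI), zero_mul]

omit [NumberField K] in
theorem rcc_ext {χ χ' : RCC K} (h1 : χ.f = χ'.f) (h2 : χ.S = χ'.S) (h3 : χ.ψ = χ'.ψ) : χ = χ' := by
  cases χ
  cases χ'
  subst h1 h2 h3
  rfl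

end

theorem pf_PR2 : T_PR2 := by
  classical
  intro K _ _ F S l hF
  have hfin : Finite (ClassGroup (𝓞 K) →* ℂˣ) := inferInstance
  have hcard : Nat.card (ClassGroup (𝓞 K) →* ℂˣ) = classNumber K := by
    rw [CommGroup.card_monoidHom_of_hasEnoughRootsOfUnity]
    exact Nat.card_eq_fintype_card
  show {χ : RCC K | χ.f = F ∧ χ.S = S ∧ Vl F S l χ}.Finite ∧
    {χ : RCC K | χ.f = F ∧ χ.S = S ∧ Vl F S l χ}.ncard ≤ classNumber K
  rcases Set.eq_empty_or_nonempty {χ : RCC K | χ.f = F ∧ χ.S = S ∧ Vl F S l χ} with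
    he | ⟨χ₀, h0⟩
  · rw [he]
    exact ⟨Set.finite_empty, by rw [Set.ncard_empty]; exact Nat.zero_le _⟩
  · have h1 : ∀ χ : RCC K, ∃ φ : ClassGroup (𝓞 K) →* ℂˣ,
        (χ.f = F ∧ χ.S = S ∧ Vl F S l χ) → ∀ I : (Ideal (𝓞 K))⁰,
          χ.ψ I = χ₀.ψ I * ((φ (ClassGroup.mk0 I) : ℂˣ) : ℂ) := by
      intro χ
      by_cases hχ : χ.f = F ∧ χ.S = S ∧ Vl F S l χ
      · obtain ⟨φ, hφ⟩ := rat hF h0.1 hχ.1 h0.2.2 hχ.2.2
        exact ⟨φ, fun _ => hφ⟩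
      · exact ⟨1, fun h => absurd h hχ⟩
    choose Φ hΦ using h1
    have hinj : Set.InjOn Φ {χ : RCC K | χ.f = F ∧ χ.S = S ∧ Vl F S l χ} := by
      intro χ hχ χ' hχ' e
      refine rcc_ext (hχ.1.trans hχ'.1.symm) (hχ.2.1.trans hχ'.2.1.symm) ?_
      funext I
      by_cases hI : I = ⊥
      · rw [hI, χ.map_bot, χ'.map_bot]
      · have h1 := hΦ χ hχ ⟨I, mem_nonZeroDivisors_iff_ne_zero.mpr hI⟩
        have h2 := hΦ χ' hχ' ⟨I, mem_nonZeroDivisors_iff_ne_zero.mpr hI⟩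
        rw [e] at h1
        exact h1.trans h2.symm
    refine ⟨Set.Finite.of_injOn (t := Set.univ) (fun _ _ => Set.mem_univ _) hinj
      Set.finite_univ, ?_⟩
    rw [← hcard, ← Set.ncard_univ]
    exact Set.ncard_le_ncard_of_injOn Φ (fun _ _ => Set.mem_univ _) hinj Set.finite_univ

end Pool.Agent.H21.HH
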