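import Pool.Agent.H33.HH.TD
import Pool.Agent.H1.PSQ.RC
import Pool.Agent.H20.PSQ.JM

/-!
# Row RCD: sums of the convolution of 1 and a quadratic character
-/

set_option autoImplicit false

open Finset Pool.Agent.H34.PS Pool.Agent.H33.HH

namespace Pool.Agent.H21.HH

open Pool.Agent.H1.PSQ (F sum_swap sum_inv_le abs_chi_le abel partial_sum
  odd_part_sum F_nonneg)

theorem F_sum_le' (D : ℤ) (b y : ℕ) (hb : 1 ≤ b) (hper : ∀ n : ℕ, chi D (n + 4 * b) = chi D n)
    (h0 : ∑ n ∈ range (4 * b), chi D n = 0) :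
    ∑ e ∈ Icc 1 y, F D e ≤ (y : ℝ) * (2 + Real.log (4 * b)) := by
  have h1 := sum_swap (chi D) y
  unfold F
  rw [h1]
  have h2 : ∑ t ∈ Icc 1 y, ((y / t : ℕ) : ℝ) * chi D t =
      ∑ t ∈ range (4 * b + 1 + y), ((y / t : ℕ) : ℝ) * chi D t := by
    refine sum_subset ?_ ?_
    · intro t ht
      rw [mem_Icc] at ht
      rw [mem_range]
      omega
    · intro t _ ht
      rw [mem_Icc] at ht
      by_cases h : t = 0
      · subst h
        simp
      · have h3 : y / t = 0 := Nat.div_eq_of_lt (by omega)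
        rw [h3, Nat.cast_zero, zero_mul]
  rw [h2, sum_range_add]
  have hA : ∑ t ∈ range (4 * b + 1), ((y / t : ℕ) : ℝ) * chi D t ≤
      (y : ℝ) * (1 + Real.log (4 * b)) := by
    rw [sum_range_succ']
    have hz : ((y / 0 : ℕ) : ℝ) * chi D 0 = 0 := by simp
    rw [hz, add_zero]
    have h4 := sum_inv_le (4 * b)
    push_cast at h4
    refine le_trans ?_ (mul_le_mul_of_nonneg_left h4 (Nat.cast_nonneg y))
    rw [mul_sum]
    refine sum_le_sum fun t _ => ?_
    calc ((y / (t + 1) : ℕ) : ℝ) * chi D (t + 1) ≤ ((y / (t + 1) : ℕ) : ℝ) * 1 :=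
          mul_le_mul_of_nonneg_left (le_of_abs_le (abs_chi_le _ _)) (Nat.cast_nonneg _)
      _ = ((y / (t + 1) : ℕ) : ℝ) := mul_one _
      _ ≤ (y : ℝ) / ((t + 1 : ℕ) : ℝ) := Nat.cast_div_le
      _ = (y : ℝ) * (1 / ((t : ℝ) + 1)) := by
          push_cast
          ring
  have hB : ∑ x ∈ range y, ((y / (4 * b + 1 + x) : ℕ) : ℝ) * chi D (4 * b + 1 + x) ≤ y := by
    have h5 := abel (fun i => ((y / (4 * b + 1 + i) : ℕ) : ℝ)) (fun i => chi D (4 * b + 1 + i))
      ?_ ?_ (4 * b : ℕ) ?_ y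
    · refine h5.trans ?_
      simp only [add_zero]
      rw [← Nat.cast_mul]
      norm_cast
      calc y / (4 * b + 1) * (4 * b) ≤ y / (4 * b + 1) * (4 * b + 1) :=
            Nat.mul_le_mul_left _ (by omega)
        _ ≤ y := Nat.div_mul_le_self _ _
    · intro n
      show ((y / (4 * b + 1 + (n + 1)) : ℕ) : ℝ) ≤ ((y / (4 * b + 1 + n) : ℕ) : ℝ)
      exact_mod_cast Nat.div_le_div_left (by omega) (by omega)
    · intro n
      exact Nat.cast_nonneg _
    · intro j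
      exact le_of_abs_le (partial_sum (chi D) (4 * b) (by omega) (abs_chi_le _) hper h0 _ j)
  linarith

theorem dok_ker (d : ℤ) (hd : IsFund d) : Dok (ker d).natAbs (ker d) ∧ (ker d).natAbs ≤ d.natAbs ∧
    1 ≤ (ker d).natAbs := by
  rcases hd with ⟨h1, h2, h3⟩ | ⟨h1, h2, h3⟩
  · have hk : ker d = d := if_pos h1
    rw [hk]
    refine ⟨Or.inl ⟨by omega, Int.squarefree_natAbs.2 h2, by omega⟩, le_rfl, by omega⟩
  · have hk : ker d = d / 4 := if_neg (by omega)
    rw [hk]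
    have h4 : d / 4 ≠ 0 := by omega
    refine ⟨?_, by omega, by omega⟩
    by_cases h5 : (d / 4).natAbs = 1
    · exact Or.inr ⟨h5, by omega⟩
    · exact Or.inl ⟨by omega, Int.squarefree_natAbs.2 h2, by omega⟩

theorem pf_RCD : T_RCD := by
  intro d hd
  obtain ⟨hok, hle, h1⟩ := dok_ker d hd
  obtain ⟨-, -, -, -, hper, h0⟩ := Pool.Agent.H20.PSQ.pf_JM _ _ hok
  refine ⟨fun e => F_nonneg (ker d) e, fun y => ?_⟩
  have h2 : ∀ y : ℕ, ∑ e ∈ Icc 1 y, F (ker d) e ≤
      (y : ℝ) * (2 + Real.log (4 * ((ker d).natAbs : ℝ))) := fun y =>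
    F_sum_le' (ker d) _ y h1 hper h0
  have hb : (1 : ℝ) ≤ ((ker d).natAbs : ℝ) := by exact_mod_cast h1
  have hL : (0 : ℝ) ≤ 2 + Real.log (4 * ((ker d).natAbs : ℝ)) := by
    have : 0 ≤ Real.log (4 * ((ker d).natAbs : ℝ)) := Real.log_nonneg (by linarith)
    linarith
  refine (odd_part_sum (F (ker d)) (F_nonneg (ker d)) _ hL h2 y).trans ?_
  have hab : ((d.natAbs : ℕ) : ℝ) = |(d : ℝ)| := by
    rw [Nat.cast_natAbs, Int.cast_abs]
  have hle' : ((ker d).natAbs : ℝ) ≤ |(d : ℝ)| := by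
    rw [← hab]
    exact_mod_cast hle
  have hlog : Real.log (4 * ((ker d).natAbs : ℝ)) ≤ Real.log (4 * |(d : ℝ)|) :=
    Real.log_le_log (by linarith) (by linarith)
  have hy : (0 : ℝ) ≤ 2 * (y : ℝ) := by positivity
  exact mul_le_mul_of_nonneg_left (by linarith) hy

end Pool.Agent.H21.HH
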